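import Mathlib

/-!
# A lower bound for Euler's function, and sums of distinct totients
-/

set_option autoImplicit false

open Finset

namespace Pool.Agent.Y806.SD

/-- `∏ p ≤ (|S| + 1) ∏ (p - 1)` for sets of integers `≥ 2` -/
lemma prod_le_card (S : Finset ℕ) (hS : ∀ p ∈ S, 2 ≤ p) :
    ∏ p ∈ S, p ≤ (S.card + 1) * ∏ p ∈ S, (p - 1) := by
  induction S using Finset.induction_on_max with
  | empty => simp
  | insert a s hlt ih =>
    have has : a ∉ s := fun h => (hlt a h).false
    rw [Finset.prod_insert has, Finset.prod_insert has, Finset.card_insert_of_notMem has]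
    have h1 := ih fun p hp => hS p (Finset.mem_insert_of_mem hp)
    have h2 : 2 ≤ a := hS a (Finset.mem_insert_self _ _)
    have h3 : s.card + 2 ≤ a := by
      have : s ⊆ Finset.Ico 2 a := fun p hp =>
        Finset.mem_Ico.mpr ⟨hS p (Finset.mem_insert_of_mem hp), hlt p hp⟩
      have := Finset.card_le_card this
      rw [Nat.card_Ico] at this
      omega
    obtain ⟨a', rfl⟩ : ∃ a', a = a' + 1 := ⟨a - 1, by omega⟩
    rw [Nat.add_sub_cancel]
    calc (a' + 1) * ∏ p ∈ s, p ≤ (a' + 1) * ((s.card + 1) * ∏ p ∈ s, (p - 1)) :=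
          Nat.mul_le_mul_left _ h1
      _ = ((a' + 1) * (s.card + 1)) * ∏ p ∈ s, (p - 1) := by ring
      _ ≤ ((s.card + 1 + 1) * a') * ∏ p ∈ s, (p - 1) := by
          apply Nat.mul_le_mul_right
          nlinarith
      _ = (s.card + 1 + 1) * (a' * ∏ p ∈ s, (p - 1)) := by ring

/-- `d ≤ φ(d) (log₂ d + 1)` -/
lemma le_totient (d : ℕ) (hd : 1 ≤ d) : d ≤ Nat.totient d * (Nat.log 2 d + 1) := by
  have h1 := Nat.totient_mul_prod_primeFactors d
  have h2 : ∏ p ∈ d.primeFactors, p ≤ (d.primeFactors.card + 1) * ∏ p ∈ d.primeFactors, (p - 1) :=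
    prod_le_card _ fun p hp => (Nat.prime_of_mem_primeFactors hp).two_le
  have h3 : 0 < ∏ p ∈ d.primeFactors, (p - 1) := Finset.prod_pos fun p hp => by
    have := (Nat.prime_of_mem_primeFactors hp).two_le
    omega
  have h4 : d.primeFactors.card ≤ Nat.log 2 d := by
    apply Nat.le_log_of_pow_le (by norm_num)
    calc 2 ^ d.primeFactors.card ≤ ∏ p ∈ d.primeFactors, p :=
          Finset.pow_card_le_prod _ _ _ fun p hp => (Nat.prime_of_mem_primeFactors hp).two_le
      _ ≤ d := Nat.le_of_dvd hd (Nat.prod_primeFactors_dvd d)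
  have h5 : d * ∏ p ∈ d.primeFactors, (p - 1) ≤
      (Nat.totient d * (Nat.log 2 d + 1)) * ∏ p ∈ d.primeFactors, (p - 1) := by
    rw [← h1]
    calc Nat.totient d * ∏ p ∈ d.primeFactors, p
        ≤ Nat.totient d * ((d.primeFactors.card + 1) * ∏ p ∈ d.primeFactors, (p - 1)) :=
          Nat.mul_le_mul_left _ h2
      _ ≤ Nat.totient d * ((Nat.log 2 d + 1) * ∏ p ∈ d.primeFactors, (p - 1)) := by gcongr
      _ = _ := by ring
  exact Nat.le_of_mul_le_mul_right h5 h3

/-- the sum of `k` distinct natural numbers is at least `0 + 1 + ... + (k - 1)` -/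
lemma sum_range_le (D : Finset ℕ) : ∑ i ∈ Finset.range D.card, i ≤ ∑ d ∈ D, d := by
  induction D using Finset.induction_on_max with
  | empty => simp
  | insert a s hlt ih =>
    have has : a ∉ s := fun h => (hlt a h).false
    rw [Finset.card_insert_of_notMem has, Finset.sum_insert has, Finset.sum_range_succ]
    have : s.card ≤ a := by
      have : s ⊆ Finset.range a := fun p hp => Finset.mem_range.mpr (hlt p hp)
      simpa using Finset.card_le_card this
    omega

lemma log_sq_le (d : ℕ) (hd : 1 ≤ d) : (Nat.log 2 d + 1) ^ 2 ≤ 4 * d := by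
  have h1 : 2 ^ Nat.log 2 d ≤ d := Nat.pow_log_le_self 2 (by omega)
  have h2 : ∀ n : ℕ, (n + 1) ^ 2 ≤ 4 * 2 ^ n := by
    intro n
    rcases Nat.lt_or_ge n 4 with h | h
    · interval_cases n <;> norm_num
    · induction n, h using Nat.le_induction with
      | base => norm_num
      | succ k hk ih => rw [pow_succ 2 k]; nlinarith
  exact (h2 _).trans (Nat.mul_le_mul_left _ h1)

/-- a finite set of positive integers whose totients have sum at most `N` has at most
about `√(N log N)` elements -/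
lemma card_sq_le (D : Finset ℕ) (hD : ∀ d ∈ D, 1 ≤ d) (N : ℕ) (hN : 1 ≤ N)
    (h : ∑ d ∈ D, Nat.totient d ≤ N) :
    D.card * D.card ≤ 2 * (Nat.log 2 (4 * N ^ 2) + 2) * N := by
  have h1 : ∀ d ∈ D, d ≤ Nat.totient d * (Nat.log 2 (4 * N ^ 2) + 1) := by
    intro d hd
    have h2 : Nat.totient d ≤ N := (Finset.single_le_sum (fun _ _ => Nat.zero_le _) hd).trans h
    have h3 := le_totient d (hD d hd)
    have h4 := log_sq_le d (hD d hd)
    have h5 : d ≤ 4 * N ^ 2 := by
      have h6 : d ≤ N * (Nat.log 2 d + 1) := h3.trans (Nat.mul_le_mul_right _ h2)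
      have h7 : d * d ≤ N ^ 2 * (4 * d) := by
        calc d * d ≤ (N * (Nat.log 2 d + 1)) * (N * (Nat.log 2 d + 1)) := Nat.mul_le_mul h6 h6
          _ = N ^ 2 * (Nat.log 2 d + 1) ^ 2 := by ring
          _ ≤ N ^ 2 * (4 * d) := Nat.mul_le_mul_left _ h4
      have h8 : d * d ≤ (4 * N ^ 2) * d := by linarith
      exact Nat.le_of_mul_le_mul_right h8 (hD d hd)
    exact h3.trans (Nat.mul_le_mul_left _ (by have := Nat.log_mono_right (b := 2) h5; omega))
  have h2 : ∑ d ∈ D, d ≤ N * (Nat.log 2 (4 * N ^ 2) + 1) := by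
    calc ∑ d ∈ D, d ≤ ∑ d ∈ D, Nat.totient d * (Nat.log 2 (4 * N ^ 2) + 1) := Finset.sum_le_sum h1
      _ = (∑ d ∈ D, Nat.totient d) * (Nat.log 2 (4 * N ^ 2) + 1) := by rw [Finset.sum_mul]
      _ ≤ _ := Nat.mul_le_mul_right _ h
  have h3 := sum_range_le D
  have h4 := Finset.sum_range_id_mul_two D.card
  have h5 : D.card ≤ N := by
    calc D.card = ∑ d ∈ D, 1 := by simp
      _ ≤ ∑ d ∈ D, Nat.totient d := Finset.sum_le_sum fun d hd => Nat.totient_pos.mpr (hD d hd)
      _ ≤ N := h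
  have h6 : D.card * D.card ≤ D.card * (D.card - 1) + D.card := by
    rcases Nat.eq_zero_or_pos D.card with h | h
    · simp [h]
    · obtain ⟨k, hk⟩ : ∃ k, D.card = k + 1 := ⟨D.card - 1, by omega⟩
      rw [hk]; simp; ring_nf; rfl
  nlinarith

end Pool.Agent.Y806.SD
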