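import Mathlib
import Pool.Agent.H388SL.Fin

/-!
# Irreducible factors of integer polynomials: Mahler measure
-/

set_option autoImplicit false

open Finset Polynomial Module IntermediateField

namespace Pool.Agent.Y806.SD

open Pool.Agent.H388SL

/-- Dobrowolski's bound for monic irreducible integer polynomials -/
lemma irr_monic_dob {c : ℝ}
    (hc : ∀ (K : Type) [Field K] [NumberField K] (α : K), IsIntegral ℤ α →
      α ≠ 0 → (∀ n : ℕ, 0 < n → α ^ n ≠ 1) → CInj α →
      c / (Real.log (2 * finrank ℚ K)) ^ 3 ≤ lam α)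
    (p : ℤ[X]) (hp : Irreducible p) (hm : p.Monic)
    (z : ℂ) (hz : aeval z p = 0) (hz0 : z ≠ 0) (hzr : ∀ n : ℕ, 0 < n → z ^ n ≠ 1) :
    c / (Real.log (2 * p.natDegree)) ^ 3 ≤ Real.log (MM p) := by
  classical
  have hzi : IsIntegral ℤ z := ⟨p, hm, by rw [← Polynomial.aeval_def]; exact hz⟩
  have hzQ : IsIntegral ℚ z := hzi.tower_top
  have hmin : minpoly ℤ z = p := by
    have h1 := minpoly.isIntegrallyClosed_dvd hzi hz
    have h2 : Associated (minpoly ℤ z) p :=
      (minpoly.irreducible hzi).associated_of_dvd hp h1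
    exact eq_of_monic_of_associated (minpoly.monic hzi) hm h2
  set L := adjoin ℚ {z} with hL
  have hfin : FiniteDimensional ℚ L := adjoin.finiteDimensional hzQ
  have : NumberField L := { to_charZero := inferInstance, to_finiteDimensional := hfin }
  set α : L := AdjoinSimple.gen ℚ z with hα
  have hαz : algebraMap L ℂ α = z := AdjoinSimple.algebraMap_gen ℚ z
  have hαi : IsIntegral ℤ α := by
    rw [← hαz] at hzi
    exact (isIntegral_algebraMap_iff (algebraMap L ℂ).injective).mp hzi
  have hα0 : α ≠ 0 := by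
    intro h
    rw [h, map_zero] at hαz
    exact hz0 hαz.symm
  have hαroot : ∀ n : ℕ, 0 < n → α ^ n ≠ 1 := by
    intro n hn h
    have h1 := congrArg (algebraMap L ℂ) h
    rw [map_pow, hαz, map_one] at h1
    exact hzr n hn h1
  have hαc : CInj α := by
    intro σ τ h
    apply adjoin_algHom_ext ℚ (s := {z})
    intro x hx
    rw [Set.mem_singleton_iff] at hx
    subst hx
    exact h
  have hminα : minpoly ℤ α = p := by
    rw [← hmin, ← hαz]
    exact (minpoly.algebraMap_eq (algebraMap L ℂ).injective α).symm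
  have hpmap : p.map (Int.castRingHom ℂ) = ∏ τ : L →ₐ[ℚ] ℂ, (X - C (τ α)) := by
    rw [← minpoly_map_eq hαc, minpoly.isIntegrallyClosed_eq_field_fractions' ℚ hαi, hminα,
      Polynomial.map_map]
    rfl
  have hMM : Real.log (MM p) = lam α := by
    rw [MM, hpmap]
    have h1 : (∏ τ : L →ₐ[ℚ] ℂ, (X - C (τ α))).mahlerMeasure = ∏ τ : L →ₐ[ℚ] ℂ, max 1 ‖τ α‖ := by
      rw [Finset.prod_eq_multiset_prod, prod_mahlerMeasure_eq_mahlerMeasure_prod, Multiset.map_map,
        Finset.prod_eq_multiset_prod]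
      congr 1
      refine Multiset.map_congr rfl fun τ _ => ?_
      rw [Function.comp_apply, mahlerMeasure_X_sub_C]
    rw [h1, Real.log_prod]
    · rfl
    · intro τ _
      have : (0:ℝ) < max 1 ‖τ α‖ := lt_of_lt_of_le one_pos (le_max_left _ _)
      exact this.ne'
  have hfr : finrank ℚ L = p.natDegree := by
    rw [hL, adjoin.finrank hzQ, minpoly.isIntegrallyClosed_eq_field_fractions' ℚ hzi, hmin]
    exact natDegree_map_eq_of_injective (algebraMap ℤ ℚ).injective_int p
  have h := hc L α hαi hα0 hαroot hαc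
  rw [hfr, ← hMM] at h
  exact h

/-- a monic irreducible integer polynomial with a root of unity as a root is cyclotomic -/
lemma irr_monic_cyc (p : ℤ[X]) (hp : Irreducible p) (hm : p.Monic)
    (z : ℂ) (hz : aeval z p = 0) (n : ℕ) (hn : 0 < n) (hzn : z ^ n = 1) :
    ∃ d : ℕ, 1 ≤ d ∧ p = cyclotomic d ℤ := by
  have hzi : IsIntegral ℤ z := ⟨p, hm, by rw [← Polynomial.aeval_def]; exact hz⟩
  have hmin : minpoly ℤ z = p := by
    have h1 := minpoly.isIntegrallyClosed_dvd hzi hz
    have h2 : Associated (minpoly ℤ z) p :=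
      (minpoly.irreducible hzi).associated_of_dvd hp h1
    exact eq_of_monic_of_associated (minpoly.monic hzi) hm h2
  have h1 : 0 < orderOf z := orderOf_pos_iff.mpr (isOfFinOrder_iff_pow_eq_one.mpr ⟨n, hn, hzn⟩)
  exact ⟨orderOf z, h1, by rw [← hmin, ← cyclotomic_eq_minpoly (IsPrimitiveRoot.orderOf z) h1]⟩

/-- A normalised irreducible integer polynomial other than `X` and the cyclotomic ones has a
Mahler measure bounded from below in terms of its degree. -/
theorem irr_cases : ∃ c : ℝ, 0 < c ∧ ∀ (n : ℕ), 1 ≤ n → ∀ p : ℤ[X], Irreducible p →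
    normalize p = p → p.natDegree ≤ n →
    p = X ∨ (∃ d : ℕ, 1 ≤ d ∧ p = cyclotomic d ℤ) ∨
      c / (Real.log (2 * n)) ^ 3 ≤ Real.log (MM p) := by
  obtain ⟨c1, hc1, hc⟩ := dob
  have hl2 : 0 < Real.log 2 := Real.log_pos (by norm_num)
  refine ⟨min c1 ((Real.log 2) ^ 4), by positivity, ?_⟩
  intro n hn p hp hpn hpd
  set c := min c1 ((Real.log 2) ^ 4) with hcdef
  have hc0 : 0 < c := by positivity
  have hn1 : (1:ℝ) ≤ n := by exact_mod_cast hn
  have hL : Real.log 2 ≤ Real.log (2 * n) := Real.log_le_log (by norm_num) (by linarith)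
  have hL0 : 0 < Real.log (2 * n) := lt_of_lt_of_le hl2 hL
  have hbig : (2:ℝ) ≤ MM p → c / (Real.log (2 * n)) ^ 3 ≤ Real.log (MM p) := by
    intro h2
    have h3 : Real.log 2 ≤ Real.log (MM p) := Real.log_le_log (by norm_num) h2
    refine le_trans ?_ h3
    rw [div_le_iff₀ (by positivity)]
    calc c ≤ (Real.log 2) ^ 4 := min_le_right _ _
      _ = Real.log 2 * (Real.log 2) ^ 3 := by ring
      _ ≤ Real.log 2 * (Real.log (2 * n)) ^ 3 := by gcongr
  have hp0 : p ≠ 0 := hp.ne_zero
  by_cases hdeg : p.natDegree = 0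
  · right; right
    apply hbig
    obtain ⟨a, ha⟩ := natDegree_eq_zero.mp hdeg
    have h1 : ¬ IsUnit a := fun h => hp.not_isUnit (ha ▸ (isUnit_C.mpr h))
    have h2 : a ≠ 0 := by rintro rfl; exact hp0 (by rw [← ha, C_0])
    have h3 : 2 ≤ |a| := by
      have h4 : 1 ≤ |a| := Int.one_le_abs h2
      rcases h4.lt_or_eq with h5 | h5
      · omega
      · exact absurd (Int.isUnit_iff_abs_eq.mpr h5.symm) h1
    have h4 := coeff_zero_le_MM p
    rw [← ha, coeff_C_zero] at h4
    have h5 : (2:ℝ) ≤ |(a : ℝ)| := by exact_mod_cast h3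
    rw [← ha]; linarith
  by_cases hlc : 2 ≤ |p.leadingCoeff|
  · right; right
    apply hbig
    have h3 := leadingCoeff_le_MM p
    have h4 : (2:ℝ) ≤ |(p.leadingCoeff : ℝ)| := by exact_mod_cast hlc
    linarith
  by_cases hcc : 2 ≤ |p.coeff 0|
  · right; right
    apply hbig
    have h3 := coeff_zero_le_MM p
    have h4 : (2:ℝ) ≤ |(p.coeff 0 : ℝ)| := by exact_mod_cast hcc
    linarith
  have hm : p.Monic := by
    have h1 : |p.leadingCoeff| = 1 := by
      have := Int.one_le_abs (leadingCoeff_ne_zero.mpr hp0)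
      omega
    have h2 : normalize p.leadingCoeff = p.leadingCoeff := by
      rw [← leadingCoeff_normalize, hpn]
    have h3 := Int.nonneg_of_normalize_eq_self h2
    rw [abs_of_nonneg h3] at h1
    exact h1
  by_cases h00 : p.coeff 0 = 0
  · left
    have h1 : X ∣ p := X_dvd_iff.mpr h00
    have h2 : Associated X p := prime_X.irreducible.associated_of_dvd hp h1
    exact (eq_of_monic_of_associated monic_X hm h2).symm
  obtain ⟨z, hz⟩ := IsAlgClosed.exists_aeval_eq_zero ℂ p (by
    intro h
    exact hdeg (natDegree_eq_of_degree_eq_some h))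
  have hz0 : z ≠ 0 := by
    rintro rfl
    apply h00
    rw [Polynomial.aeval_def, Polynomial.eval₂_eq_eval_map, ← Polynomial.coeff_zero_eq_eval_zero,
      Polynomial.coeff_map] at hz
    exact (algebraMap ℤ ℂ).injective_int (by rw [hz, map_zero])
  by_cases hzr : ∀ n : ℕ, 0 < n → z ^ n ≠ 1
  · right; right
    have h1 := irr_monic_dob hc p hp hm z hz hz0 hzr
    refine le_trans ?_ h1
    have hd1 : (1:ℝ) ≤ p.natDegree := by exact_mod_cast Nat.one_le_iff_ne_zero.mpr hdeg
    have hd2 : (p.natDegree : ℝ) ≤ n := by exact_mod_cast hpd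
    have hd3 : 0 < Real.log (2 * p.natDegree) := Real.log_pos (by linarith)
    have hd4 : Real.log (2 * p.natDegree) ≤ Real.log (2 * n) :=
      Real.log_le_log (by linarith) (by linarith)
    have hcc1 : c ≤ c1 := min_le_left _ _
    gcongr
  · right; left
    push Not at hzr
    obtain ⟨k, hk, hzk⟩ := hzr
    exact irr_monic_cyc p hp hm z hz k hk hzk

end Pool.Agent.Y806.SD
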