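import Mathlib
import Pool.Agent.Y806.SD.A
import Pool.Agent.Y806.SD.B

/-!
# The number of divisors of an integer polynomial
-/

set_option autoImplicit false

open Finset Polynomial UniqueFactorizationMonoid

namespace Pool.Agent.Y806.SD

open Pool.Agent.H388SL

lemma MM_one : MM (1 : ℤ[X]) = 1 := by
  rw [MM, Polynomial.map_one, mahlerMeasure_one]

lemma log_MM_multiset (t : Multiset ℤ[X]) (h0 : (0 : ℤ[X]) ∉ t) :
    Real.log (MM t.prod) = (t.map fun p => Real.log (MM p)).sum := by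
  induction t using Multiset.induction_on with
  | empty => simp [MM_one]
  | cons a t ih =>
    have h1 : a ≠ 0 := fun h => h0 (h ▸ Multiset.mem_cons_self a t)
    have h2 : (0 : ℤ[X]) ∉ t := fun h => h0 (Multiset.mem_cons_of_mem h)
    have h3 : t.prod ≠ 0 := fun h => h2 (Multiset.prod_eq_zero_iff.mp h)
    rw [Multiset.prod_cons, Multiset.map_cons, Multiset.sum_cons, MM_mul,
      Real.log_mul (MM_pos h1).ne' (MM_pos h3).ne', ih h2]

/-- The number of divisors of a nonzero integer polynomial, counted over its factorisation. -/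
lemma divisors_card (P : ℤ[X]) (hP : P ≠ 0) :
    {f : ℤ[X] | f ∣ P}.Finite ∧ {f : ℤ[X] | f ∣ P}.ncard ≤
      2 * ∏ p ∈ (normalizedFactors P).toFinset, ((normalizedFactors P).count p + 1) := by
  classical
  set s := normalizedFactors P with hs
  set T : Finset ℤ[X] := ((Finset.Iic s) ×ˢ ({1, -1} : Finset ℤ)).image
    (fun q => C q.2 * q.1.prod) with hT
  have hsub : {f : ℤ[X] | f ∣ P} ⊆ (T : Set ℤ[X]) := by
    intro f hf
    have hf' : f ∣ P := hf
    have hf0 : f ≠ 0 := fun h => hP (zero_dvd_iff.mp (h ▸ hf'))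
    have h1 : normalizedFactors f ≤ s :=
      (dvd_iff_normalizedFactors_le_normalizedFactors hf0 hP).mp hf'
    obtain ⟨u, hu⟩ := prod_normalizedFactors hf0
    obtain ⟨v, hv, hvu⟩ := Polynomial.isUnit_iff.mp u.isUnit
    rw [hT]
    simp only [Finset.coe_image, Set.mem_image, Finset.mem_coe, Finset.mem_product, Prod.exists]
    refine ⟨normalizedFactors f, v, ⟨Finset.mem_Iic.mpr h1, ?_⟩, ?_⟩
    · rcases Int.isUnit_iff.mp hv with h | h <;> simp [h]
    · rw [hvu, mul_comm]; exact hu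
  have hfin : {f : ℤ[X] | f ∣ P}.Finite := T.finite_toSet.subset hsub
  refine ⟨hfin, ?_⟩
  calc {f : ℤ[X] | f ∣ P}.ncard ≤ (T : Set ℤ[X]).ncard := Set.ncard_le_ncard hsub T.finite_toSet
    _ = T.card := Set.ncard_coe_finset T
    _ ≤ #((Finset.Iic s) ×ˢ ({1, -1} : Finset ℤ)) := Finset.card_image_le
    _ = #(Finset.Iic s) * 2 := by rw [Finset.card_product]; rfl
    _ = 2 * ∏ p ∈ s.toFinset, (s.count p + 1) := by rw [Multiset.card_Iic, mul_comm]

/-- cyclotomic factors are few -/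
lemma cyc_card (s : Finset ℤ[X]) (hs : ∀ p ∈ s, ∃ d : ℕ, 1 ≤ d ∧ p = cyclotomic d ℤ) (n : ℕ)
    (hn : 1 ≤ n) (h : ∑ p ∈ s, p.natDegree ≤ n) :
    s.card * s.card ≤ 2 * (Nat.log 2 (4 * n ^ 2) + 2) * n := by
  classical
  choose! g hg1 hg2 using hs
  have hinj : Set.InjOn g s := by
    intro p hp q hq hpq
    rw [hg2 p hp, hg2 q hq, hpq]
  have h1 := card_sq_le (s.image g) (by
    intro d hd
    obtain ⟨p, hp, rfl⟩ := Finset.mem_image.mp hd
    exact hg1 p hp) n hn (by
    rw [Finset.sum_image hinj]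
    refine le_trans (Finset.sum_le_sum fun p hp => ?_) h
    conv_rhs => rw [hg2 p hp]
    rw [natDegree_cyclotomic])
  rwa [Finset.card_image_of_injOn hinj] at h1

/-- real estimates -/
lemma real_est (n k r : ℕ) (hn : 1 ≤ n) (c lm : ℝ) (hc : 0 < c)
    (hk : k * k ≤ 2 * (Nat.log 2 (4 * n ^ 2) + 2) * n)
    (hr : (r : ℝ) * (c / (Real.log (2 * n)) ^ 3) ≤ lm) :
    (2 : ℝ) * ((n + 1 : ℕ) ^ (1 + k) * 2 ^ r) ≤
      Real.exp ((9 + 1 / c) * (Real.sqrt n * (Real.log (2 * n)) ^ 2 +
        (Real.log (2 * n)) ^ 3 * lm)) := by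
  have hn1 : (1:ℝ) ≤ n := by exact_mod_cast hn
  have hl2 : 0.6931471803 < Real.log 2 := Real.log_two_gt_d9
  have hl2' : Real.log 2 < 0.6931471808 := Real.log_two_lt_d9
  have hL : Real.log 2 ≤ Real.log (2 * n) := Real.log_le_log (by norm_num) (by linarith)
  set L := Real.log (2 * n) with hLdef
  have hL0 : 0 < L := by linarith
  have hs1 : 1 ≤ Real.sqrt n := Real.one_le_sqrt.mpr hn1
  have hsn : Real.sqrt n ^ 2 = n := Real.sq_sqrt (by linarith)
  -- bound for k
  have hlog : (Nat.log 2 (4 * n ^ 2) : ℝ) ≤ 2 * L / Real.log 2 := by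
    have h1 := Real.natLog_le_logb (4 * n ^ 2) 2
    have h2 : Real.logb 2 ((4 * n ^ 2 : ℕ) : ℝ) = 2 * L / Real.log 2 := by
      rw [Real.logb]
      congr 1
      have : ((4 * n ^ 2 : ℕ) : ℝ) = (2 * n) ^ 2 := by push_cast; ring
      rw [this, Real.log_pow]
      push_cast; rfl
    have h3 : (Nat.log 2 (4 * n ^ 2) : ℝ) ≤ Real.logb ((2 : ℕ) : ℝ) ((4 * n ^ 2 : ℕ) : ℝ) := h1
    rw [← h2]
    exact_mod_cast h3
  have hk1 : (k : ℝ) * k ≤ 2 * ((Nat.log 2 (4 * n ^ 2) : ℝ) + 2) * n := by exact_mod_cast hk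
  have hlog' : (Nat.log 2 (4 * n ^ 2) : ℝ) + 2 ≤ 6 * L := by
    have h1 : 2 * L / Real.log 2 ≤ 3 * L := by
      rw [div_le_iff₀ (by linarith)]
      nlinarith
    nlinarith
  have hk2 : (k : ℝ) ≤ 5 * Real.sqrt n * L := by
    have h1 : (k : ℝ) ^ 2 ≤ (5 * Real.sqrt n * L) ^ 2 := by
      calc (k : ℝ) ^ 2 = k * k := by ring
        _ ≤ 2 * (6 * L) * n := by
          refine hk1.trans ?_
          have : (0:ℝ) ≤ n := by linarith
          nlinarith
        _ ≤ 25 * n * L ^ 2 := by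
          have h3 : 12 * L ≤ 25 * L ^ 2 := by nlinarith
          nlinarith
        _ = (5 * Real.sqrt n * L) ^ 2 := by rw [mul_pow, mul_pow, hsn]; ring
    exact le_of_sq_le_sq h1 (by positivity)
  have hk3 : (1 + k : ℝ) ≤ 7 * Real.sqrt n * L := by
    have : 1 ≤ 2 * Real.sqrt n * L := by nlinarith
    linarith
  -- the bad part
  have hA : ((n + 1 : ℕ) : ℝ) ^ (1 + k) ≤ Real.exp (7 * Real.sqrt n * L ^ 2) := by
    have h1 : ((n + 1 : ℕ) : ℝ) ≤ Real.exp L := by
      rw [hLdef, Real.exp_log (by linarith)]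
      push_cast; linarith
    calc ((n + 1 : ℕ) : ℝ) ^ (1 + k) ≤ (Real.exp L) ^ (1 + k) := by gcongr
      _ = Real.exp ((1 + k) * L) := by
        rw [← Real.exp_nat_mul]; push_cast; rfl
      _ ≤ Real.exp (7 * Real.sqrt n * L ^ 2) := by
        apply Real.exp_le_exp.mpr
        calc (1 + (k : ℝ)) * L ≤ (7 * Real.sqrt n * L) * L := by gcongr
          _ = _ := by ring
  have hB : (2 : ℝ) ^ r ≤ Real.exp ((1 / c) * (L ^ 3 * lm)) := by
    have h1 : (2:ℝ) ^ r = Real.exp (r * Real.log 2) := by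
      rw [Real.exp_nat_mul, Real.exp_log (by norm_num)]
    rw [h1]
    apply Real.exp_le_exp.mpr
    have h2 : (r : ℝ) ≤ (1 / c) * (L ^ 3 * lm) := by
      have h3 : (r : ℝ) = (1 / c) * (L ^ 3 * (r * (c / L ^ 3))) := by
        field_simp
      rw [h3]
      gcongr
    have h4 : (0:ℝ) ≤ r := Nat.cast_nonneg r
    nlinarith
  have hlm : 0 ≤ lm := le_trans (by positivity) hr
  have hC : (2:ℝ) ≤ Real.exp (2 * Real.sqrt n * L ^ 2) := by
    have h1 : Real.log 2 ≤ 2 * Real.sqrt n * L ^ 2 := by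
      have h2 : (0.48 : ℝ) ≤ L ^ 2 := by nlinarith
      have h3 : L ^ 2 ≤ Real.sqrt n * L ^ 2 := by nlinarith [sq_nonneg L]
      nlinarith
    calc (2:ℝ) = Real.exp (Real.log 2) := (Real.exp_log (by norm_num)).symm
      _ ≤ _ := Real.exp_le_exp.mpr h1
  calc (2 : ℝ) * ((n + 1 : ℕ) ^ (1 + k) * 2 ^ r)
      ≤ Real.exp (2 * Real.sqrt n * L ^ 2) * (Real.exp (7 * Real.sqrt n * L ^ 2) *
        Real.exp ((1 / c) * (L ^ 3 * lm))) := by gcongr
    _ = Real.exp (9 * (Real.sqrt n * L ^ 2) + (1 / c) * (L ^ 3 * lm)) := by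
      rw [← Real.exp_add, ← Real.exp_add]; ring_nf
    _ ≤ _ := by
      apply Real.exp_le_exp.mpr
      have h1 : 0 ≤ Real.sqrt n * L ^ 2 := by positivity
      have h2 : 0 ≤ L ^ 3 * lm := by positivity
      have h3 : 0 < 1 / c := by positivity
      nlinarith

/-- **Divisor bound for integer polynomials.** -/
theorem divisor_bound : ∃ K : ℝ, 0 < K ∧ ∀ n : ℕ, 1 ≤ n → ∀ P : ℤ[X], P ≠ 0 → P.natDegree ≤ n →
    {f : ℤ[X] | f ∣ P}.Finite ∧ ({f : ℤ[X] | f ∣ P}.ncard : ℝ) ≤
      Real.exp (K * (Real.sqrt n * (Real.log (2 * n)) ^ 2 +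
        (Real.log (2 * n)) ^ 3 * Real.log (MM P))) := by
  classical
  obtain ⟨c, hc, hirr⟩ := irr_cases
  refine ⟨9 + 1 / c, by positivity, ?_⟩
  intro n hn P hP hPn
  obtain ⟨hfin, hcard⟩ := divisors_card P hP
  refine ⟨hfin, ?_⟩
  set s := normalizedFactors P with hs
  have h0s : (0 : ℤ[X]) ∉ s := zero_notMem_normalizedFactors P
  have hassoc : Associated s.prod P := prod_normalizedFactors hP
  have hsp0 : s.prod ≠ 0 := fun h => h0s (Multiset.prod_eq_zero_iff.mp h)
  have hsd : s.prod.natDegree = P.natDegree :=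
    natDegree_eq_of_degree_eq (degree_eq_degree_of_associated hassoc)
  have hdeg : ∑ p ∈ s.toFinset, s.count p * p.natDegree = P.natDegree := by
    rw [← hsd, natDegree_multiset_prod s h0s, Finset.sum_multiset_map_count]
    simp
  have hlogM : ∑ p ∈ s.toFinset, (s.count p : ℝ) * Real.log (MM p) ≤ Real.log (MM P) := by
    have h1 : Real.log (MM s.prod) ≤ Real.log (MM P) := by
      obtain ⟨u, hu⟩ := hassoc
      rw [← hu, MM_mul]
      apply Real.log_le_log (MM_pos hsp0)
      have := one_le_MM (f := (u : ℤ[X])) u.ne_zero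
      have := MM_pos hsp0
      nlinarith
    refine le_trans (le_of_eq ?_) h1
    rw [log_MM_multiset s h0s, Finset.sum_multiset_map_count]
    simp
  have hirr' : ∀ p ∈ s.toFinset, Irreducible p ∧ normalize p = p ∧ p.natDegree ≤ n := by
    intro p hp
    rw [Multiset.mem_toFinset] at hp
    refine ⟨irreducible_of_normalized_factor p hp, normalize_normalized_factor p hp, ?_⟩
    exact (natDegree_le_of_dvd (dvd_of_mem_normalizedFactors hp) hP).trans hPn
  set cyc : Finset ℤ[X] := s.toFinset.filter fun p => ∃ d : ℕ, 1 ≤ d ∧ p = cyclotomic d ℤ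
    with hcyc
  set bad : Finset ℤ[X] := s.toFinset.filter fun p => p = X ∨ ∃ d : ℕ, 1 ≤ d ∧ p = cyclotomic d ℤ
    with hbad
  set good : Finset ℤ[X] :=
    s.toFinset.filter fun p => ¬ (p = X ∨ ∃ d : ℕ, 1 ≤ d ∧ p = cyclotomic d ℤ) with hgood
  have hsplit : (∏ p ∈ s.toFinset, (s.count p + 1)) =
      (∏ p ∈ bad, (s.count p + 1)) * ∏ p ∈ good, (s.count p + 1) := by
    rw [hbad, hgood, Finset.prod_filter_mul_prod_filter_not]
  have hbadle : bad.card ≤ 1 + cyc.card := by
    have : bad ⊆ insert X cyc := by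
      intro p hp
      rw [hbad, Finset.mem_filter] at hp
      rcases hp.2 with h | h
      · rw [h]; exact Finset.mem_insert_self _ _
      · exact Finset.mem_insert_of_mem (Finset.mem_filter.mpr ⟨hp.1, h⟩)
    have := (Finset.card_le_card this).trans (Finset.card_insert_le _ _)
    omega
  have hcount1 : ∀ p ∈ s.toFinset, 1 ≤ s.count p := fun p hp =>
    Multiset.one_le_count_iff_mem.mpr (Multiset.mem_toFinset.mp hp)
  have hcycdeg : ∑ p ∈ cyc, p.natDegree ≤ n := by
    calc ∑ p ∈ cyc, p.natDegree ≤ ∑ p ∈ cyc, s.count p * p.natDegree := by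
          apply Finset.sum_le_sum
          intro p hp
          have := hcount1 p (Finset.mem_filter.mp hp).1
          nlinarith
      _ ≤ ∑ p ∈ s.toFinset, s.count p * p.natDegree :=
          Finset.sum_le_sum_of_subset (Finset.filter_subset _ _)
      _ = P.natDegree := hdeg
      _ ≤ n := hPn
  have hk := cyc_card cyc (fun p hp => (Finset.mem_filter.mp hp).2) n hn hcycdeg
  -- bad part
  have hbadprod : (∏ p ∈ bad, (s.count p + 1)) ≤ (n + 1) ^ (1 + cyc.card) := by
    have h1 : ∀ p ∈ bad, s.count p + 1 ≤ n + 1 := by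
      intro p hp
      rw [hbad, Finset.mem_filter] at hp
      have hd : 1 ≤ p.natDegree := by
        rcases hp.2 with h | ⟨d, hd, h⟩
        · rw [h, natDegree_X]
        · rw [h, natDegree_cyclotomic]
          exact Nat.totient_pos.mpr hd
      have h2 : s.count p * p.natDegree ≤ ∑ p ∈ s.toFinset, s.count p * p.natDegree :=
        Finset.single_le_sum (f := fun p => s.count p * p.natDegree)
          (fun _ _ => Nat.zero_le _) hp.1
      have h3 : s.count p ≤ s.count p * p.natDegree := by nlinarith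
      omega
    calc (∏ p ∈ bad, (s.count p + 1)) ≤ (n + 1) ^ bad.card := Finset.prod_le_pow_card _ _ _ h1
      _ ≤ (n + 1) ^ (1 + cyc.card) := Nat.pow_le_pow_right (by omega) hbadle
  -- good part
  set r := ∑ p ∈ good, s.count p with hr
  have hgoodprod : (∏ p ∈ good, (s.count p + 1)) ≤ 2 ^ r := by
    rw [hr, ← Finset.prod_pow_eq_pow_sum]
    exact Finset.prod_le_prod' fun p _ => Nat.succ_le_of_lt (Nat.lt_two_pow_self)
  have hrle : (r : ℝ) * (c / (Real.log (2 * n)) ^ 3) ≤ Real.log (MM P) := by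
    rw [hr]
    push_cast
    rw [Finset.sum_mul]
    calc ∑ p ∈ good, (s.count p : ℝ) * (c / (Real.log (2 * n)) ^ 3)
        ≤ ∑ p ∈ good, (s.count p : ℝ) * Real.log (MM p) := by
          apply Finset.sum_le_sum
          intro p hp
          rw [hgood, Finset.mem_filter] at hp
          obtain ⟨h1, h2, h3⟩ := hirr' p hp.1
          have h4 := hirr n hn p h1 h2 h3
          have h5 : c / (Real.log (2 * n)) ^ 3 ≤ Real.log (MM p) := by
            rcases h4 with h | h | h
            · exact absurd (Or.inl h) hp.2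
            · exact absurd (Or.inr h) hp.2
            · exact h
          gcongr
      _ ≤ ∑ p ∈ s.toFinset, (s.count p : ℝ) * Real.log (MM p) := by
          apply Finset.sum_le_sum_of_subset_of_nonneg (Finset.filter_subset _ _)
          intro p hp _
          exact mul_nonneg (Nat.cast_nonneg _) (Real.log_nonneg (one_le_MM (hirr' p hp).1.ne_zero))
      _ ≤ _ := hlogM
  have hfinal := real_est n cyc.card r hn c (Real.log (MM P)) hc hk hrle
  refine le_trans ?_ hfinal
  have h5 : {f : ℤ[X] | f ∣ P}.ncard ≤ 2 * ((n + 1) ^ (1 + cyc.card) * 2 ^ r) := by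
    refine hcard.trans ?_
    rw [hsplit]
    gcongr
  exact_mod_cast h5

end Pool.Agent.Y806.SD
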