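import Mathlib
import Pool.Agent.Y806.SD.C

/-!
# Products of integers with small digits in a large base
-/

set_option autoImplicit false

open Finset Polynomial

namespace Pool.Agent.Y806.SD

open Pool.Agent.H388SL

/-- the integer `x` has at most `m` digits in base `b`, all of them between `-H` and `H` -/
def Small (m : ℕ) (H b x : ℤ) : Prop :=
  ∃ a : ℕ → ℤ, (∀ i, |a i| ≤ H) ∧ x = ∑ i ∈ Finset.range m, a i * b ^ i

/-- the polynomial with given coefficients -/
noncomputable def poly (m : ℕ) (a : ℕ → ℤ) : ℤ[X] := ∑ i ∈ Finset.range m, C (a i) * X ^ i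

lemma poly_coeff (m : ℕ) (a : ℕ → ℤ) (k : ℕ) :
    (poly m a).coeff k = if k < m then a k else 0 := by
  rw [poly, finsetSum_coeff]
  simp_rw [coeff_C_mul_X_pow]
  rw [Finset.sum_ite_eq]
  simp

lemma poly_eval (m : ℕ) (a : ℕ → ℤ) (b : ℤ) :
    (poly m a).eval b = ∑ i ∈ Finset.range m, a i * b ^ i := by
  rw [poly, eval_finsetSum]
  simp

lemma poly_coeff_le (m : ℕ) (a : ℕ → ℤ) (H : ℤ) (ha : ∀ i, |a i| ≤ H) (k : ℕ) :
    |(poly m a).coeff k| ≤ H := by
  rw [poly_coeff]
  split_ifs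
  · exact ha k
  · rw [abs_zero]; exact (abs_nonneg _).trans (ha 0)

lemma poly_natDegree (m : ℕ) (a : ℕ → ℤ) : (poly m a).natDegree ≤ m := by
  rw [natDegree_le_iff_coeff_eq_zero]
  intro k hk
  rw [poly_coeff, if_neg (by omega)]

lemma poly_mul_coeff_le (m : ℕ) (a : ℕ → ℤ) (H : ℤ) (ha : ∀ i, |a i| ≤ H) (g : ℤ[X])
    (hg : ∀ k, |g.coeff k| ≤ H) (k : ℕ) : |(poly m a * g).coeff k| ≤ m * H ^ 2 := by
  have hH : 0 ≤ H := (abs_nonneg _).trans (ha 0)
  have h1 : (poly m a * g).coeff k =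
      ∑ i ∈ Finset.range m, a i * (if i ≤ k then g.coeff (k - i) else 0) := by
    rw [poly, Finset.sum_mul, finsetSum_coeff]
    apply Finset.sum_congr rfl
    intro i _
    rw [mul_assoc, coeff_C_mul, coeff_X_pow_mul']
  have h2 : ∀ i ∈ Finset.range m, |a i * (if i ≤ k then g.coeff (k - i) else 0)| ≤ H ^ 2 := by
    intro i _
    have h3 : |(if i ≤ k then g.coeff (k - i) else 0)| ≤ H := by
      by_cases h : i ≤ k
      · rw [if_pos h]; exact hg _
      · rw [if_neg h, abs_zero]; exact hH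
    rw [abs_mul]
    calc |a i| * |(if i ≤ k then g.coeff (k - i) else 0)| ≤ H * H :=
          mul_le_mul (ha i) h3 (abs_nonneg _) hH
      _ = H ^ 2 := by ring
  rw [h1]
  refine (Finset.abs_sum_le_sum_abs _ _).trans ((Finset.sum_le_sum h2).trans ?_)
  rw [Finset.sum_const, Finset.card_range, nsmul_eq_mul]

/-- a polynomial with coefficients smaller than `b` is determined by its value at `b` -/
lemma eval_inj (F : ℤ[X]) (b : ℤ) (hF : ∀ k, |F.coeff k| < b) (h0 : F.eval b = 0) : F = 0 := by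
  by_contra hne
  have hb : 0 < b := (abs_nonneg _).trans_lt (hF 0)
  set k := F.natTrailingDegree with hk
  have h1 : X ^ k ∣ F := by
    rw [X_pow_dvd_iff]
    intro d hd
    exact coeff_eq_zero_of_lt_natTrailingDegree hd
  obtain ⟨G, hG⟩ := h1
  have h2 : F.coeff k = G.coeff 0 := by
    conv_lhs => rw [hG]
    simpa using coeff_X_pow_mul G k 0
  have h3 : G.eval b = 0 := by
    rw [hG, eval_mul, eval_pow, eval_X] at h0
    rcases mul_eq_zero.mp h0 with h | h
    · exact absurd h (pow_pos hb k).ne'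
    · exact h
  have h4 : b ∣ G.coeff 0 := by
    have := sub_dvd_eval_sub b 0 G
    rw [sub_zero, h3, zero_sub, dvd_neg, ← coeff_zero_eq_eval_zero] at this
    exact this
  have h5 : G.coeff 0 = 0 := Int.eq_zero_of_abs_lt_dvd h4 (by rw [← h2]; exact hF k)
  rw [← h2] at h5
  exact hne (trailingCoeff_eq_zero.mp h5)

lemma MM_poly_le (m : ℕ) (a : ℕ → ℤ) (H : ℤ) (ha : ∀ i, |a i| ≤ H) :
    MM (poly m a) ≤ m * H := by
  have hH : 0 ≤ H := (abs_nonneg _).trans (ha 0)
  have h1 := mahlerMeasure_le_sum_norm_coeff ((poly m a).map (Int.castRingHom ℂ))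
  refine h1.trans ?_
  rw [Polynomial.sum_def]
  have h2 : ((poly m a).map (Int.castRingHom ℂ)).support ⊆ Finset.range m := by
    intro k hk
    rw [mem_support_iff, coeff_map] at hk
    rw [Finset.mem_range]
    by_contra h
    exact hk (by rw [poly_coeff, if_neg h, map_zero])
  calc ∑ n ∈ ((poly m a).map (Int.castRingHom ℂ)).support,
        ‖((poly m a).map (Int.castRingHom ℂ)).coeff n‖
      ≤ ∑ n ∈ Finset.range m, ‖((poly m a).map (Int.castRingHom ℂ)).coeff n‖ :=
        Finset.sum_le_sum_of_subset_of_nonneg h2 fun _ _ _ => norm_nonneg _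
    _ ≤ ∑ n ∈ Finset.range m, (H : ℝ) := by
        apply Finset.sum_le_sum
        intro n _
        rw [coeff_map, eq_intCast, Complex.norm_intCast]
        exact_mod_cast poly_coeff_le m a H ha n
    _ = m * H := by simp

/-- the error term -/
noncomputable def err (m : ℕ) (H : ℝ) : ℝ :=
  Real.sqrt m * (Real.log (2 * m)) ^ 2 + (Real.log (2 * m)) ^ 3 * Real.log H

lemma err_nonneg (m : ℕ) (H : ℝ) (hm : 1 ≤ m) (hH : 1 ≤ H) : 0 ≤ err m H := by
  have hm1 : (1:ℝ) ≤ m := by exact_mod_cast hm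
  have h1 : 0 ≤ Real.log (2 * m) := Real.log_nonneg (by linarith)
  have h2 : 0 ≤ Real.log H := Real.log_nonneg hH
  unfold err
  positivity

lemma err_est (m : ℕ) (H M : ℝ) (hm : 1 ≤ m) (hH : 1 ≤ H) (hM : M ≤ (m * H) ^ 2) (hM1 : 1 ≤ M) :
    Real.sqrt (2 * m : ℕ) * (Real.log (2 * (2 * m : ℕ))) ^ 2 +
      (Real.log (2 * (2 * m : ℕ))) ^ 3 * Real.log M ≤ 600 * err m H := by
  have hm1 : (1:ℝ) ≤ m := by exact_mod_cast hm
  have hl2 : 0.6931471803 < Real.log 2 := Real.log_two_gt_d9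
  have hL : Real.log 2 ≤ Real.log (2 * m) := Real.log_le_log (by norm_num) (by linarith)
  set L := Real.log (2 * m) with hLdef
  have hL0 : 0 < L := by linarith
  have h4 : Real.log (2 * (2 * m : ℕ)) ≤ 2 * L := by
    have : (2 * ((2 * m : ℕ) : ℝ)) = 2 * (2 * m) := by push_cast; ring
    rw [this, Real.log_mul (by norm_num) (by linarith)]
    linarith
  have h40 : 0 ≤ Real.log (2 * (2 * m : ℕ)) := Real.log_nonneg (by push_cast; linarith)
  have hs : Real.sqrt (2 * m : ℕ) ≤ 2 * Real.sqrt m := by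
    have : ((2 * m : ℕ) : ℝ) ≤ 4 * m := by push_cast; linarith
    calc Real.sqrt (2 * m : ℕ) ≤ Real.sqrt (4 * m) := Real.sqrt_le_sqrt this
      _ = 2 * Real.sqrt m := by
        rw [Real.sqrt_mul (by norm_num)]
        congr 1
        rw [show (4:ℝ) = 2 ^ 2 by norm_num, Real.sqrt_sq (by norm_num)]
  have hs0 : 0 ≤ Real.sqrt m := Real.sqrt_nonneg _
  have hlogM : Real.log M ≤ 2 * L + 2 * Real.log H := by
    calc Real.log M ≤ Real.log ((m * H) ^ 2) := Real.log_le_log (by linarith) hM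
      _ = 2 * (Real.log m + Real.log H) := by
        rw [Real.log_pow, Real.log_mul (by linarith) (by linarith)]
        push_cast; ring
      _ ≤ 2 * L + 2 * Real.log H := by
        have : Real.log m ≤ L := Real.log_le_log (by linarith) (by linarith)
        linarith
  have hlH : 0 ≤ Real.log H := Real.log_nonneg hH
  have hlM0 : 0 ≤ Real.log M := Real.log_nonneg hM1
  -- L ^ 2 ≤ 32 √m
  have hL2 : L ^ 2 ≤ 32 * Real.sqrt m := by
    have h1 : (0:ℝ) < Real.sqrt (2 * m) := Real.sqrt_pos.mpr (by linarith)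
    have h2 : (0:ℝ) < Real.sqrt (Real.sqrt (2 * m)) := Real.sqrt_pos.mpr h1
    have h3 : Real.log (2 * m) = 4 * Real.log (Real.sqrt (Real.sqrt (2 * m))) := by
      rw [Real.log_sqrt h1.le, Real.log_sqrt (by linarith)]
      ring
    have h5 : Real.log (Real.sqrt (Real.sqrt (2 * m))) ≤ Real.sqrt (Real.sqrt (2 * m)) :=
      (Real.log_le_sub_one_of_pos h2).trans (by linarith)
    have h6 : L ≤ 4 * Real.sqrt (Real.sqrt (2 * m)) := by rw [hLdef, h3]; linarith
    have h7 : L ^ 2 ≤ 16 * Real.sqrt (2 * m) := by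
      calc L ^ 2 ≤ (4 * Real.sqrt (Real.sqrt (2 * m))) ^ 2 := by gcongr
        _ = 16 * Real.sqrt (2 * m) := by
          rw [mul_pow, Real.sq_sqrt h1.le]; norm_num
    have h8 : Real.sqrt (2 * m) ≤ 2 * Real.sqrt m := by
      calc Real.sqrt (2 * m) ≤ Real.sqrt (4 * m) := Real.sqrt_le_sqrt (by linarith)
        _ = 2 * Real.sqrt m := by
          rw [Real.sqrt_mul (by norm_num)]
          congr 1
          rw [show (4:ℝ) = 2 ^ 2 by norm_num, Real.sqrt_sq (by norm_num)]
    linarith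
  have hA : Real.sqrt (2 * m : ℕ) * (Real.log (2 * (2 * m : ℕ))) ^ 2 ≤
      8 * (Real.sqrt m * L ^ 2) := by
    calc Real.sqrt (2 * m : ℕ) * (Real.log (2 * (2 * m : ℕ))) ^ 2
        ≤ (2 * Real.sqrt m) * (2 * L) ^ 2 := by gcongr
      _ = _ := by ring
  have hB : (Real.log (2 * (2 * m : ℕ))) ^ 3 * Real.log M ≤
      512 * (Real.sqrt m * L ^ 2) + 16 * (L ^ 3 * Real.log H) := by
    calc (Real.log (2 * (2 * m : ℕ))) ^ 3 * Real.log M
        ≤ (2 * L) ^ 3 * (2 * L + 2 * Real.log H) := by gcongr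
      _ = 16 * (L ^ 2 * L ^ 2) + 16 * (L ^ 3 * Real.log H) := by ring
      _ ≤ 16 * ((32 * Real.sqrt m) * L ^ 2) + 16 * (L ^ 3 * Real.log H) := by gcongr
      _ = _ := by ring
  unfold err
  have h9 : 0 ≤ Real.sqrt m * L ^ 2 := by positivity
  have h10 : 0 ≤ L ^ 3 * Real.log H := by positivity
  linarith

/-- few pairs have the same product -/
theorem pairs : ∃ K : ℝ, 0 < K ∧ ∀ m : ℕ, 1 ≤ m → ∀ H : ℕ, 1 ≤ H → ∀ b : ℤ, 2 * m * H ^ 2 < b →
    ∀ G : Finset (ℤ × ℤ), (∀ p ∈ G, Small m H b p.1 ∧ Small m H b p.2 ∧ p.1 ≠ 0 ∧ p.2 ≠ 0) →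
    (G.card : ℝ) ≤ Real.exp (K * err m H) * #(G.image fun p => p.1 * p.2) := by
  classical
  obtain ⟨K, hK, hdiv⟩ := divisor_bound
  refine ⟨600 * K, by positivity, ?_⟩
  intro m hm H hH b hb G hG
  have hH1 : (1:ℝ) ≤ H := by exact_mod_cast hH
  set E : ℝ := Real.exp (600 * K * err m H) with hE
  have hfib : ∀ z ∈ G.image (fun p : ℤ × ℤ => p.1 * p.2),
      #{p ∈ G | p.1 * p.2 = z} ≤ ⌊E⌋₊ := by
    intro z hz
    obtain ⟨p0, hp0, hz0⟩ := Finset.mem_image.mp hz
    have hall : ∀ x : ℤ, Small m H b x → ∃ a : ℕ → ℤ, (∀ i, |a i| ≤ (H : ℤ)) ∧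
        (poly m a).eval b = x := by
      rintro x ⟨a, ha, hx⟩
      exact ⟨a, ha, by rw [poly_eval, hx]⟩
    choose! a ha hae using hall
    have hprod : ∀ p ∈ G, (∀ k, |(poly m (a p.1) * poly m (a p.2)).coeff k| ≤ m * (H:ℤ) ^ 2) ∧
        (poly m (a p.1) * poly m (a p.2)).eval b = p.1 * p.2 := by
      intro p hp
      obtain ⟨h1, h2, h3, h4⟩ := hG p hp
      refine ⟨poly_mul_coeff_le m _ H (ha _ h1) _ (poly_coeff_le m _ H (ha _ h2)), ?_⟩
      rw [eval_mul, hae _ h1, hae _ h2]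
    set P := poly m (a p0.1) * poly m (a p0.2) with hP
    obtain ⟨hs1, hs2, hs3, hs4⟩ := hG p0 hp0
    have hP0 : P ≠ 0 := by
      intro h
      have h1 := (hprod p0 hp0).2
      rw [← hP, h, eval_zero] at h1
      exact mul_ne_zero hs3 hs4 h1.symm
    have hPdeg : P.natDegree ≤ 2 * m := by
      have := natDegree_mul_le (p := poly m (a p0.1)) (q := poly m (a p0.2))
      have h1 := poly_natDegree m (a p0.1)
      have h2 := poly_natDegree m (a p0.2)
      rw [← hP] at this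
      omega
    obtain ⟨hfin, hcard⟩ := hdiv (2 * m) (by omega) P hP0 hPdeg
    have hMP : MM P ≤ (m * H : ℝ) ^ 2 := by
      rw [hP, MM_mul, sq]
      have h1 := MM_poly_le m (a p0.1) H (ha _ hs1)
      have h2 := MM_poly_le m (a p0.2) H (ha _ hs2)
      push_cast at h1 h2
      have h3 : 0 ≤ MM (poly m (a p0.2)) := mahlerMeasure_nonneg _
      gcongr
    have hcard' : ({f : ℤ[X] | f ∣ P}.ncard : ℝ) ≤ E := by
      refine hcard.trans ?_
      rw [hE]
      apply Real.exp_le_exp.mpr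
      have := err_est m H (MM P) hm hH1 hMP (one_le_MM hP0)
      calc K * _ ≤ K * (600 * err m H) := mul_le_mul_of_nonneg_left this hK.le
        _ = _ := by ring
    apply Nat.le_floor
    refine le_trans ?_ hcard'
    rw [← Set.ncard_coe_finset]
    have hinj : Set.InjOn (fun p : ℤ × ℤ => poly m (a p.1))
        ((({p ∈ G | p.1 * p.2 = z} : Finset (ℤ × ℤ)) : Set (ℤ × ℤ))) := by
      intro p hp q hq hpq
      simp only [Finset.coe_filter, Set.mem_ofPred_eq] at hp hq
      have h1 : p.1 = q.1 := by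
        have := congrArg (fun f : ℤ[X] => f.eval b) hpq
        simp only at this
        rw [hae _ (hG p hp.1).1, hae _ (hG q hq.1).1] at this
        exact this
      have h2 : p.2 = q.2 := by
        have h3 : p.1 * p.2 = p.1 * q.2 := by rw [hp.2, ← hq.2, h1]
        exact mul_left_cancel₀ (hG p hp.1).2.2.1 h3
      exact Prod.ext h1 h2
    have hmaps : ∀ p ∈ ((({p ∈ G | p.1 * p.2 = z} : Finset (ℤ × ℤ)) : Set (ℤ × ℤ))),
        (fun p : ℤ × ℤ => poly m (a p.1)) p ∈ {f : ℤ[X] | f ∣ P} := by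
      intro p hp
      simp only [Finset.coe_filter, Set.mem_ofPred_eq] at hp
      have h1 := hprod p hp.1
      have h2 := hprod p0 hp0
      have h3 : poly m (a p.1) * poly m (a p.2) - P = 0 := by
        apply eval_inj _ b
        · intro k
          rw [coeff_sub]
          have h4 := h1.1 k
          have h5 := h2.1 k
          rw [← hP] at h5
          have h6 := abs_sub ((poly m (a p.1) * poly m (a p.2)).coeff k) (P.coeff k)
          linarith
        · rw [eval_sub, h1.2, hP, h2.2, hp.2, hz0, sub_self]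
      exact ⟨poly m (a p.2), (sub_eq_zero.mp h3).symm⟩
    exact_mod_cast Set.ncard_le_ncard_of_injOn _ hmaps hinj hfin
  have h1 := Finset.card_le_mul_card_image G ⌊E⌋₊ hfib
  have h2 : (⌊E⌋₊ : ℝ) ≤ E := Nat.floor_le (Real.exp_pos _).le
  calc (G.card : ℝ) ≤ (⌊E⌋₊ : ℝ) * #(G.image fun p => p.1 * p.2) := by exact_mod_cast h1
    _ ≤ E * #(G.image fun p => p.1 * p.2) := by gcongr

end Pool.Agent.Y806.SD
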