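import Mathlib
import Pool.Agent.Y806.SD.D

/-!
# Product sets of sets of integers with small digits
-/

set_option autoImplicit false

open Finset Polynomial
open scoped Pointwise

namespace Pool.Agent.Y806.SD

lemma four_le (m : ℕ) (H : ℝ) (hm : 1 ≤ m) (hH : 1 ≤ H) : (4:ℝ) ≤ Real.exp (3 * err m H) := by
  have hm1 : (1:ℝ) ≤ m := by exact_mod_cast hm
  have hl2 : 0.6931471803 < Real.log 2 := Real.log_two_gt_d9
  have hl2' : Real.log 2 < 0.6931471808 := Real.log_two_lt_d9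
  have hL : Real.log 2 ≤ Real.log (2 * m) := Real.log_le_log (by norm_num) (by linarith)
  have hs1 : 1 ≤ Real.sqrt m := Real.one_le_sqrt.mpr hm1
  have h1 : (0.48 : ℝ) ≤ (Real.log (2 * m)) ^ 2 := by nlinarith
  have h2 : 0 ≤ (Real.log (2 * m)) ^ 3 * Real.log H := by
    have := Real.log_nonneg hH
    have : 0 ≤ Real.log (2 * m) := by linarith
    positivity
  have h3 : Real.log 4 ≤ 3 * err m H := by
    have h4 : Real.log 4 = 2 * Real.log 2 := by
      rw [show (4:ℝ) = 2 ^ 2 by norm_num, Real.log_pow]; norm_num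
    unfold err
    nlinarith
  calc (4:ℝ) = Real.exp (Real.log 4) := (Real.exp_log (by norm_num)).symm
    _ ≤ _ := Real.exp_le_exp.mpr h3

/-- sets covered by `k` dilates of sets of integers with small digits -/
theorem covered : ∃ K : ℝ, 0 < K ∧ ∀ m : ℕ, 1 ≤ m → ∀ H : ℕ, 1 ≤ H → ∀ (k : ℕ) (lam : Fin k → ℚ)
    (b : Fin k → ℤ), (∀ j, 2 * m * H ^ 2 < b j) → ∀ A : Finset ℤ,
    (∀ x ∈ A, ∃ j, ∃ y : ℤ, Small m H (b j) y ∧ (x : ℚ) = lam j * y) →
    (A.card : ℝ) ^ 2 ≤ k ^ 2 * Real.exp (K * err m H) * #(A * A) := by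
  classical
  obtain ⟨K, hK, hpairs⟩ := pairs
  refine ⟨3 + K, by positivity, ?_⟩
  intro m hm H hH k lam b hb A hA
  have hH1 : (1:ℝ) ≤ H := by exact_mod_cast hH
  have herr := err_nonneg m H hm hH1
  rcases A.eq_empty_or_nonempty with hAe | hAne
  · simp [hAe]
  have hk : 1 ≤ k := by
    obtain ⟨x, hx⟩ := hAne
    obtain ⟨j, _⟩ := hA x hx
    have := j.2
    omega
  have hk1 : (1:ℝ) ≤ k := by exact_mod_cast hk
  have hAA : (1:ℝ) ≤ #(A * A) := by
    exact_mod_cast Finset.card_pos.mpr (hAne.mul hAne)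
  have hE1 : 1 ≤ Real.exp ((3 + K) * err m H) := Real.one_le_exp (by positivity)
  set A' := A.erase 0 with hA'
  rcases A'.eq_empty_or_nonempty with hAe' | hAne'
  · have h1 : A.card ≤ 1 := by
      have := Finset.pred_card_le_card_erase (s := A) (a := 0)
      rw [← hA', hAe', Finset.card_empty] at this
      omega
    have h2 : (A.card : ℝ) ≤ 1 := by exact_mod_cast h1
    have h3 : (0:ℝ) ≤ A.card := Nat.cast_nonneg _
    have h4 : (A.card : ℝ) ^ 2 ≤ 1 := by nlinarith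
    have h5 : (1:ℝ) ≤ k ^ 2 * Real.exp ((3 + K) * err m H) * #(A * A) := by
      have : (1:ℝ) ≤ k ^ 2 := by nlinarith
      have h6 : (1:ℝ) ≤ k ^ 2 * Real.exp ((3 + K) * err m H) := one_le_mul_of_one_le_of_one_le this hE1
      exact one_le_mul_of_one_le_of_one_le h6 hAA
    linarith
  -- main case
  have hA2 : A.card ≤ 2 * A'.card := by
    have h1 := Finset.pred_card_le_card_erase (s := A) (a := 0)
    have h2 := Finset.card_pos.mpr hAne'
    rw [← hA'] at h1
    omega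
  have hne : Nonempty (Fin k) := ⟨⟨0, by omega⟩⟩
  choose! f y hf using hA
  have hmem : ∀ x ∈ A', x ∈ A ∧ x ≠ 0 := fun x hx => ⟨Finset.mem_of_mem_erase hx, Finset.ne_of_mem_erase hx⟩
  obtain ⟨j, -, hj⟩ : ∃ j ∈ (Finset.univ : Finset (Fin k)), A'.card ≤ k * #{x ∈ A' | f x = j} := by
    by_contra hcon
    push Not at hcon
    have h1 : A'.card = ∑ j : Fin k, #{x ∈ A' | f x = j} :=
      Finset.card_eq_sum_card_fiberwise (fun x _ => Finset.mem_univ _)
    have h2 : k * A'.card = ∑ j : Fin k, k * #{x ∈ A' | f x = j} := by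
      rw [← Finset.mul_sum, ← h1]
    have h3 : ∑ j : Fin k, k * #{x ∈ A' | f x = j} < ∑ _j : Fin k, A'.card :=
      Finset.sum_lt_sum_of_nonempty ⟨⟨0, by omega⟩, Finset.mem_univ _⟩ fun j hj => hcon j hj
    rw [← h2, Finset.sum_const, Finset.card_univ, Fintype.card_fin, smul_eq_mul] at h3
    exact lt_irrefl _ h3
  set F := {x ∈ A' | f x = j} with hF
  have hFm : ∀ x ∈ F, x ∈ A ∧ x ≠ 0 ∧ Small m H (b j) (y x) ∧ (x : ℚ) = lam j * y x := by
    intro x hx
    rw [hF, Finset.mem_filter] at hx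
    obtain ⟨h1, h2⟩ := hmem x hx.1
    obtain ⟨h3, h4⟩ := hf x h1
    rw [hx.2] at h3 h4
    exact ⟨h1, h2, h3, h4⟩
  set B := F.image y with hB
  have hBcard : B.card = F.card := by
    apply Finset.card_image_of_injOn
    intro x hx x' hx' h
    have h1 := (hFm x hx).2.2.2
    have h2 := (hFm x' hx').2.2.2
    rw [h, ← h2] at h1
    exact_mod_cast h1
  have hFne : F.Nonempty := by
    rw [← Finset.card_pos]
    by_contra h
    have h1 : F.card = 0 := by omega
    rw [h1, mul_zero] at hj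
    have := Finset.card_pos.mpr hAne'
    omega
  have hlam : lam j ≠ 0 := by
    obtain ⟨x, hx⟩ := hFne
    intro h
    have h1 := (hFm x hx).2.2.2
    rw [h, zero_mul] at h1
    exact (hFm x hx).2.1 (by exact_mod_cast h1)
  have h1 := hpairs m hm H hH (b j) (hb j) (B ×ˢ B) (by
    intro p hp
    rw [Finset.mem_product] at hp
    obtain ⟨x1, hx1, h1⟩ := Finset.mem_image.mp hp.1
    obtain ⟨x2, hx2, h2⟩ := Finset.mem_image.mp hp.2
    refine ⟨h1 ▸ (hFm x1 hx1).2.2.1, h2 ▸ (hFm x2 hx2).2.2.1, ?_, ?_⟩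
    · intro h
      have h3 := (hFm x1 hx1).2.2.2
      rw [h1, h, Int.cast_zero, mul_zero] at h3
      exact (hFm x1 hx1).2.1 (by exact_mod_cast h3)
    · intro h
      have h3 := (hFm x2 hx2).2.2.2
      rw [h2, h, Int.cast_zero, mul_zero] at h3
      exact (hFm x2 hx2).2.1 (by exact_mod_cast h3))
  have h2 : #((B ×ˢ B).image fun p => p.1 * p.2) ≤ #(A * A) := by
    have h3 : ((B ×ˢ B).image fun p : ℤ × ℤ => p.1 * p.2).image
        (fun z : ℤ => (lam j) ^ 2 * (z : ℚ)) ⊆ (A * A).image (fun z : ℤ => (z : ℚ)) := by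
      intro w hw
      obtain ⟨z, hz, rfl⟩ := Finset.mem_image.mp hw
      obtain ⟨p, hp, rfl⟩ := Finset.mem_image.mp hz
      rw [Finset.mem_product] at hp
      obtain ⟨x1, hx1, h1⟩ := Finset.mem_image.mp hp.1
      obtain ⟨x2, hx2, h2⟩ := Finset.mem_image.mp hp.2
      refine Finset.mem_image.mpr ⟨x1 * x2, Finset.mul_mem_mul (hFm x1 hx1).1 (hFm x2 hx2).1, ?_⟩
      push_cast
      rw [(hFm x1 hx1).2.2.2, (hFm x2 hx2).2.2.2, h1, h2]
      ring
    have h4 := Finset.card_le_card h3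
    rw [Finset.card_image_of_injective _ (fun a c hac => by
        have h5 : (lam j) ^ 2 ≠ 0 := pow_ne_zero 2 hlam
        exact_mod_cast mul_left_cancel₀ h5 hac),
      Finset.card_image_of_injective _ Int.cast_injective] at h4
    exact h4
  rw [Finset.card_product, hBcard] at h1
  have h5 : (A.card : ℝ) ≤ 2 * (k * F.card) := by
    have : A.card ≤ 2 * (k * F.card) := hA2.trans (Nat.mul_le_mul_left _ hj)
    exact_mod_cast this
  have h6 : (0:ℝ) ≤ A.card := Nat.cast_nonneg _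
  have h7 : (#((B ×ˢ B).image fun p => p.1 * p.2) : ℝ) ≤ #(A * A) := by exact_mod_cast h2
  push_cast at h1
  calc (A.card : ℝ) ^ 2 ≤ (2 * ((k : ℝ) * F.card)) ^ 2 := by gcongr
    _ = (k : ℝ) ^ 2 * (4 * ((F.card : ℝ) * F.card)) := by ring
    _ ≤ (k : ℝ) ^ 2 * (Real.exp (3 * err m H) * (Real.exp (K * err m H) * #(A * A))) := by
        have h8 := four_le m H hm hH1
        have h9 : (F.card : ℝ) * F.card ≤ Real.exp (K * err m H) * #(A * A) :=
          h1.trans (by gcongr)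
        gcongr
    _ = k ^ 2 * Real.exp ((3 + K) * err m H) * #(A * A) := by
        rw [add_mul, Real.exp_add]; ring

lemma err_asymp (H : ℝ) (K ε : ℝ) (hε : 0 < ε) : ∃ B : ℝ, 0 < B ∧ ∀ m : ℕ, 1 ≤ m →
    K * err m H ≤ ε * (m : ℝ) ^ (1 / 2 + ε) + B := by
  have hlog : ∀ (j : ℕ) (δ : ℝ), 0 < δ → (fun x : ℝ => Real.log (2 * x) ^ j) =o[Filter.atTop]
      (fun x : ℝ => x ^ δ) := by
    intro j δ hδ
    have h1 : (fun x : ℝ => Real.log x ^ j) =o[Filter.atTop] (fun x : ℝ => x ^ δ) := by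
      have := isLittleO_log_rpow_rpow_atTop (s := δ) (j : ℝ) hδ
      simpa using this
    have h2 := h1.comp_tendsto (Filter.tendsto_id.const_mul_atTop (show (0:ℝ) < 2 by norm_num))
    have h3 : ((fun x : ℝ => Real.log x ^ j) ∘ fun x : ℝ => 2 * id x) =
        fun x : ℝ => Real.log (2 * x) ^ j := by
      ext x; simp
    rw [h3] at h2
    refine h2.trans_isBigO ?_
    refine Asymptotics.IsBigO.of_bound ((2:ℝ) ^ δ) ?_
    filter_upwards [Filter.eventually_ge_atTop 0] with x hx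
    simp only [Function.comp, id]
    rw [Real.mul_rpow (by norm_num) hx, norm_mul, Real.norm_of_nonneg (by positivity)]
  have h0 : (fun x : ℝ => K * (Real.sqrt x * (Real.log (2 * x)) ^ 2 +
      (Real.log (2 * x)) ^ 3 * Real.log H)) =o[Filter.atTop] (fun x : ℝ => x ^ (1 / 2 + ε)) := by
    apply Asymptotics.IsLittleO.const_mul_left
    apply Asymptotics.IsLittleO.add
    · have h1 : (fun x : ℝ => x ^ (1 / 2 + ε)) =ᶠ[Filter.atTop] fun x => Real.sqrt x * x ^ ε := by
        filter_upwards [Filter.eventually_gt_atTop 0] with x hx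
        rw [Real.rpow_add hx, Real.sqrt_eq_rpow]
      refine Asymptotics.IsLittleO.congr' ?_ (Filter.EventuallyEq.refl _ _) h1.symm
      exact (Asymptotics.isBigO_refl _ _).mul_isLittleO (hlog 2 ε hε)
    · have h1 := (hlog 3 (1 / 2 + ε) (by positivity)).const_mul_left (Real.log H)
      refine h1.congr_left fun x => ?_
      ring
  have h1 := (h0.comp_tendsto tendsto_natCast_atTop_atTop).bound hε
  obtain ⟨N, hN⟩ := Filter.eventually_atTop.mp h1
  refine ⟨1 + ∑ m ∈ Finset.range N, |K * err m H|, by positivity, ?_⟩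
  intro m hm
  have hpos : 0 ≤ ε * (m : ℝ) ^ (1 / 2 + ε) := by positivity
  rcases Nat.lt_or_ge m N with h | h
  · have h2 : |K * err m H| ≤ ∑ m ∈ Finset.range N, |K * err m H| :=
      Finset.single_le_sum (f := fun m => |K * err m H|) (fun _ _ => abs_nonneg _)
        (Finset.mem_range.mpr h)
    have h3 := le_abs_self (K * err m H)
    linarith
  · have h2 := hN m h
    simp only [Function.comp] at h2
    have h3 : K * err m H ≤ ‖K * (Real.sqrt m * (Real.log (2 * m)) ^ 2 +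
      (Real.log (2 * m)) ^ 3 * Real.log H)‖ := by
      rw [Real.norm_eq_abs]; exact le_abs_self _
    rw [Real.norm_of_nonneg (by positivity : (0:ℝ) ≤ (m : ℝ) ^ (1 / 2 + ε))] at h2
    have h4 : 0 ≤ ∑ m ∈ Finset.range N, |K * err m H| := Finset.sum_nonneg fun _ _ => abs_nonneg _
    linarith

/-- the exponent two of the sum-product conjecture -/
theorem exponent_two (H : ℕ) (hH : 1 ≤ H) (ε : ℝ) (hε : 0 < ε) : ∃ K : ℝ, 0 < K ∧ ∀ m : ℕ, 1 ≤ m →
    ∀ (k : ℕ) (lam : Fin k → ℚ) (b : Fin k → ℤ), (∀ j, 2 * m * H ^ 2 < b j) → ∀ A : Finset ℤ,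
    (∀ x ∈ A, ∃ j, ∃ y : ℤ, Small m H (b j) y ∧ (x : ℚ) = lam j * y) →
    K * Real.exp ((m : ℝ) ^ (1 / 2 + ε)) ≤ A.card →
    (A.card : ℝ) ^ (2 - ε) ≤ k ^ 2 * #(A * A) := by
  obtain ⟨K, hK, hcov⟩ := covered
  obtain ⟨B, hB, herr⟩ := err_asymp H K ε hε
  refine ⟨Real.exp (B / ε), Real.exp_pos _, ?_⟩
  intro m hm k lam b hb A hA hcard
  have h1 := hcov m hm H hH k lam b hb A hA
  have hpos : 0 < (A.card : ℝ) := lt_of_lt_of_le (by positivity) hcard
  have h2 : B / ε + (m : ℝ) ^ (1 / 2 + ε) ≤ Real.log A.card := by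
    rw [← Real.log_exp (B / ε + (m : ℝ) ^ (1 / 2 + ε))]
    apply Real.log_le_log (Real.exp_pos _)
    rw [Real.exp_add]; exact hcard
  have h3 : Real.exp (K * err m H) ≤ (A.card : ℝ) ^ ε := by
    rw [Real.rpow_def_of_pos hpos]
    apply Real.exp_le_exp.mpr
    have h4 := herr m hm
    have h5 : ε * (B / ε + (m : ℝ) ^ (1 / 2 + ε)) ≤ ε * Real.log A.card := by gcongr
    have h6 : ε * (B / ε) = B := by field_simp
    linarith
  have h4 : (A.card : ℝ) ^ (2 - ε) * (A.card : ℝ) ^ ε ≤ k ^ 2 * #(A * A) * (A.card : ℝ) ^ ε := by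
    rw [← Real.rpow_add hpos, sub_add_cancel]
    calc (A.card : ℝ) ^ (2 : ℝ) = (A.card : ℝ) ^ 2 := by norm_cast
      _ ≤ k ^ 2 * Real.exp (K * err m H) * #(A * A) := h1
      _ ≤ k ^ 2 * (A.card : ℝ) ^ ε * #(A * A) := by gcongr
      _ = _ := by ring
  exact le_of_mul_le_mul_right h4 (Real.rpow_pos_of_pos hpos _)

end Pool.Agent.Y806.SD
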